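import Pool.Agent.H61.SS.Cover

/-!
# MP_c862d8_co: an interval of failures for every `m ≥ 2` and `h ≥ 2`

* `nu n m h` is the largest size of `h_± A` over the `m`-element subsets `A` of `ZMod n`;
* `c h m` is the number `c(h, m)` of the problem file.

For every `m ≥ 2` and `h ≥ 2` the bound `min n (c h m)` is not attained for any `n ≥ m` with
`c(h,m) - 2(m-1) + (h mod 2) ≤ n ≤ c(h,m) + c(h-2,m) + c(h-4,m) + ⋯ - (h mod 2)`.
-/

namespace Pool.Agent.Results.MP_c862d8_co.AllM

open Pool.Agent.H61.SS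

theorem result (n m h : ℕ) (hm : 2 ≤ m) (hmn : m ≤ n) (hh : 2 ≤ h)
    (hlo : c h m + h % 2 ≤ n + 2 * (m - 1))
    (hhi : n + h % 2 ≤ ∑ j ∈ Finset.range (h / 2 + 1), c (h - 2 * j) m) :
    nu n m h < min n (c h m) := by
  rcases le_total n (c h m) with h3 | h3
  · exact covering hm hh hmn h3 hlo
  · exact packing hm (by omega) (by omega) hmn h3 hhi

end Pool.Agent.Results.MP_c862d8_co.AllM
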