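import Pool.Agent.H61.SS.Pairs

/-!
# MP_c862d8_co: the case `m = 2`

* `nu n m h` is the largest size of `h_± A` over the `m`-element subsets `A` of `ZMod n`;
* `c h m` is the number `c(h, m)` of the problem file.

The theorem decides the case `m = 2` for every even `n` and every `h ≥ 2`, and for odd `n`
whenever `n ≤ 2h + q` (`q` the odd part of `h`) or `n > 3h`; in particular it decides it for all
odd `h`. What it leaves open for `m = 2` is `h` even, `n` odd and `2h + q < n ≤ 3h`.
-/

namespace Pool.Agent.Results.MP_c862d8_co.Pairs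

open Pool.Agent.H61.SS

theorem result (n h k q : ℕ) (hh : 2 ≤ h) (hn : 2 ≤ n) (hhq : h = 2 ^ k * q) (hq : Odd q)
    (hw : Even n ∨ n ≤ 2 * h + q ∨ 3 * h < n) :
    nu n 2 h < min n (c h 2) ↔
      (Even n ∧ 2 * h + 2 ≤ n ∧ (n < (h + 1) ^ 2 ∨ (Odd h ∧ n ≤ h ^ 2 + 3 * h))) ∨
      (Odd n ∧ 3 * h < n ∧ n < (h + 1) ^ 2) := by
  rcases Nat.even_or_odd n with he | ho
  · rw [pairs_even hh hn he]
    have hno : ¬ Odd n := Nat.not_odd_iff_even.mpr he
    constructor
    · exact fun h1 => Or.inl ⟨he, h1⟩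
    · rintro (h1 | h1)
      · exact h1.2
      · exact absurd h1.1 hno
  · have hne : ¬ Even n := Nat.not_even_iff_odd.mpr ho
    rw [pairs_odd hh hn ho hhq hq (hw.resolve_left hne)]
    constructor
    · exact fun h1 => Or.inr ⟨ho, h1⟩
    · rintro (h1 | h1)
      · exact absurd h1.1 hne
      · exact h1.2

end Pool.Agent.Results.MP_c862d8_co.Pairs
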